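import Pool.Agent.H34.FQ.Targets
import Pool.Agent.H81.RQ.AQ4

/-!
# Board hfq_modules, row AC1 (helper79): for most forms the density modulo `M` is at least one half
-/

set_option autoImplicit false

open Finset Pool.Agent.H32.RQ

namespace Pool.Agent.H79.HFQ

open Pool.Agent.H34.FQ
open Pool.Agent.H81.RQ (ze ze2 nr tailD)

section

variable {s M : ℕ} [NeZero M]

/-- the indicator of the zeros -/
noncomputable def i1 (f : Mon s → ZMod M) (x : Fin s → ZMod M) : ℝ := if qf f x = 0 then 1 else 0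

theorem sum_i1 (x : Fin s → ZMod M) : ∑ f : Mon s → ZMod M, i1 f x = ((ze x).card : ℝ) := by
  unfold ze i1
  rw [card_filter]
  push_cast
  rfl

theorem sum_i2 (x y : Fin s → ZMod M) :
    ∑ f : Mon s → ZMod M, i1 f x * i1 f y = ((ze2 x y).card : ℝ) := by
  unfold ze2
  rw [card_filter]
  push_cast
  refine sum_congr rfl fun f _ => ?_
  unfold i1
  by_cases h : qf f x = 0
  · by_cases h' : qf f y = 0
    · rw [if_pos h, if_pos h', if_pos ⟨h, h'⟩, one_mul]
    · have h3 : ¬ (qf f x = 0 ∧ qf f y = 0) := fun h2 => h' h2.2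
      rw [if_pos h, if_neg h', if_neg h3, mul_zero]
  · have h3 : ¬ (qf f x = 0 ∧ qf f y = 0) := fun h2 => h h2.1
    rw [if_neg h, if_neg h3, zero_mul]

end

theorem aN_eq {n : ℕ} {F : Mon (n + 2) → ℤ} (N : NF F) (M : ℕ) [NeZero M]
    (f : Mon (n + 2) → ZMod M) :
    (aN N M f : ℝ) = ∑ u : Fin n → ZMod M, i1 f (xt N 1 u) := by
  classical
  unfold aN
  rw [card_filter]
  push_cast
  refine sum_congr rfl fun u _ => ?_
  unfold i1 gG
  by_cases h : qf f (xt N 1 u) = 0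
  · simp only [if_pos h]
  · simp only [if_neg h]

theorem pf_AC1 (hAC2 : T_AC2) (hAC3 : T_AC3) (hAQ1 : T_AQ1) : T_AC1 := by
  intro n hn
  refine ⟨4, by norm_num, ?_⟩
  intro F N M w₀ _ hw hp
  classical
  have hM0 : 0 < M := Nat.pos_of_ne_zero (NeZero.ne M)
  have hM : (0 : ℝ) < M := by exact_mod_cast hM0
  have hwR : (0 : ℝ) < w₀ := by exact_mod_cast hw
  obtain ⟨B, hB⟩ : ∃ B : ℝ, B = (M : ℝ) ^ md (n + 2) := ⟨_, rfl⟩
  have hB0 : 0 < B := by rw [hB]; positivity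
  obtain ⟨A, hA⟩ : ∃ A : ℝ, A = (M : ℝ) ^ (n - 1) := ⟨_, rfl⟩
  have hA0 : 0 < A := by rw [hA]; positivity
  have hMn : (M : ℝ) ^ n = A * M := by
    rw [hA, ← pow_succ]
    congr 1
    omega
  have hunit : IsUnit (N.mu : ZMod M) := by
    rw [ZMod.coe_int_isUnit_iff_isCoprime, Int.isCoprime_iff_gcd_eq_one]
    by_contra hne
    obtain ⟨p, hpp, hpd⟩ := Nat.exists_prime_and_dvd hne
    have h1 : (p : ℤ) ∣ Int.gcd (M : ℤ) N.mu := by exact_mod_cast hpd
    have h2 : (p : ℤ) ∣ (M : ℤ) := h1.trans (Int.gcd_dvd_left ..)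
    have h3 : (p : ℤ) ∣ N.mu := h1.trans (Int.gcd_dvd_right ..)
    exact (hp p hpp (by exact_mod_cast h2)).2 h3
  set X : (Fin n → ZMod M) → Fin (n + 2) → ZMod M := fun u => xt N 1 u with hX
  -- cardinalities
  have c2 : ∀ x y : Fin (n + 2) → ZMod M,
      ((ze2 x y).card : ℝ) = B / (M : ℝ) ^ 2 * (nr x y : ℝ) := by
    intro x y
    have h1 := hAQ1 (n + 2) M x y
    have h2 : (ze2 x y).card * M ^ 2 = M ^ md (n + 2) * nr x y := h1
    have h3 : ((ze2 x y).card : ℝ) * (M : ℝ) ^ 2 = B * (nr x y : ℝ) := by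
      rw [hB]
      exact_mod_cast h2
    field_simp
    exact h3
  have cn : ∀ u u' : Fin n → ZMod M, nr (X u) (X u') =
      (Finset.univ.filter fun a : ZMod M => ∀ i, a * (u i - u' i) = 0).card := fun u u' =>
    hAC2 n F N M u u' hunit
  have cn0 : ∀ u : Fin n → ZMod M, nr (X u) (X u) = M := by
    intro u
    rw [cn]
    have h1 : (Finset.univ.filter fun a : ZMod M => ∀ i, a * (u i - u i) = 0) =
        Finset.univ := by
      refine Finset.filter_true_of_mem fun a _ i => ?_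
      rw [sub_self, mul_zero]
    rw [h1, card_univ, ZMod.card]
  have c1 : ∀ u : Fin n → ZMod M, ((ze (X u)).card : ℝ) = B / M := by
    intro u
    have h1 : ze (X u) = ze2 (X u) (X u) := by
      ext f
      unfold ze ze2
      simp only [mem_filter, mem_univ, true_and, and_self]
    rw [h1, c2, cn0]
    field_simp
  have hcu : ((univ : Finset (Fin n → ZMod M)).card : ℝ) = (M : ℝ) ^ n := by
    rw [card_univ, Fintype.card_fun, ZMod.card, Fintype.card_fin]
    push_cast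
    rfl
  -- the first moment
  have m1 : ∑ f : Mon (n + 2) → ZMod M, (aN N M f : ℝ) = B * A := by
    rw [sum_congr rfl fun f _ => aN_eq N M f, sum_comm]
    have h1 : ∀ u : Fin n → ZMod M, ∑ f : Mon (n + 2) → ZMod M, i1 f (xt N 1 u) = B / M := by
      intro u
      rw [sum_i1]
      exact c1 u
    rw [sum_congr rfl fun u _ => h1 u, sum_const, nsmul_eq_mul, hcu, hMn]
    field_simp
  -- the second moment
  obtain ⟨H, hH⟩ : ∃ H : ℝ, H = ∑ h ∈ M.divisors, (h : ℝ) / (h : ℝ) ^ n := ⟨_, rfl⟩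
  have m2 : ∑ f : Mon (n + 2) → ZMod M, (aN N M f : ℝ) ^ 2 ≤ B * A ^ 2 * H := by
    have e1 : ∑ f : Mon (n + 2) → ZMod M, (aN N M f : ℝ) ^ 2 =
        ∑ u : Fin n → ZMod M, ∑ u' : Fin n → ZMod M, ((ze2 (X u) (X u')).card : ℝ) := by
      have e2 : ∀ f : Mon (n + 2) → ZMod M, (aN N M f : ℝ) ^ 2 =
          ∑ u : Fin n → ZMod M, ∑ u' : Fin n → ZMod M, i1 f (X u) * i1 f (X u') := by
        intro f
        rw [aN_eq, sq, sum_mul_sum]
      rw [sum_congr rfl fun f _ => e2 f, sum_comm]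
      refine sum_congr rfl fun u _ => ?_
      rw [sum_comm]
      exact sum_congr rfl fun u' _ => sum_i2 _ _
    rw [e1]
    calc ∑ u : Fin n → ZMod M, ∑ u' : Fin n → ZMod M, ((ze2 (X u) (X u')).card : ℝ)
        = ∑ u : Fin n → ZMod M, B / (M : ℝ) ^ 2 * ∑ u' : Fin n → ZMod M,
            ((Finset.univ.filter fun a : ZMod M => ∀ i, a * (u i - u' i) = 0).card : ℝ) := by
          refine sum_congr rfl fun u _ => ?_
          rw [mul_sum]
          refine sum_congr rfl fun u' _ => ?_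
          rw [c2, cn]
      _ ≤ ∑ _u : Fin n → ZMod M, B / (M : ℝ) ^ 2 * ((M : ℝ) ^ n * H) := by
          refine sum_le_sum fun u _ => mul_le_mul_of_nonneg_left ?_ (by positivity)
          rw [hH]
          exact hAC3 n M u
      _ = B * A ^ 2 * H := by
          rw [sum_const, nsmul_eq_mul, hcu, hMn]
          field_simp
  -- the divisors
  have hdiv : ∀ h ∈ M.divisors.erase 1, w₀ < h := by
    intro h hh
    rw [mem_erase, Nat.mem_divisors] at hh
    obtain ⟨p, hpp, hph⟩ := Nat.exists_prime_and_dvd hh.1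
    have h1 := (hp p hpp (hph.trans hh.2.1)).1
    have h2 : 0 < h := Nat.pos_of_dvd_of_pos hh.2.1 hM0
    exact lt_of_lt_of_le h1 (Nat.le_of_dvd h2 hph)
  have hH1 : H ≤ 1 + 1 / (w₀ : ℝ) ^ 2 := by
    have h1 : (1 : ℕ) ∈ M.divisors := Nat.one_mem_divisors.2 hM0.ne'
    rw [hH, ← add_sum_erase _ _ h1]
    refine add_le_add (by simp) ?_
    refine (sum_le_sum fun h hh => ?_).trans (tailD w₀ hw _ hdiv)
    have h2 : 1 ≤ h := by
      have := hdiv h hh
      omega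
    have h3 : (1 : ℝ) ≤ h := by exact_mod_cast h2
    rw [div_le_div_iff₀ (by positivity) (by positivity), one_mul, ← pow_succ']
    exact pow_le_pow_right₀ h3 (by omega)
  -- the variance
  have hcard : ∑ _f : Mon (n + 2) → ZMod M, A ^ 2 = B * A ^ 2 := by
    rw [sum_const, nsmul_eq_mul, card_univ, Fintype.card_fun, ZMod.card, hB]
    push_cast
    rfl
  have var : ∑ f : Mon (n + 2) → ZMod M, ((aN N M f : ℝ) - A) ^ 2 ≤
      B * A ^ 2 * (1 / (w₀ : ℝ) ^ 2) := by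
    have e1 : ∑ f : Mon (n + 2) → ZMod M, ((aN N M f : ℝ) - A) ^ 2 =
        ∑ f : Mon (n + 2) → ZMod M, (aN N M f : ℝ) ^ 2 -
          2 * A * ∑ f : Mon (n + 2) → ZMod M, (aN N M f : ℝ) + B * A ^ 2 := by
      rw [← hcard, mul_sum, ← sum_sub_distrib, ← sum_add_distrib]
      exact sum_congr rfl fun F _ => by ring
    rw [e1, m1]
    have h2 : B * A ^ 2 * (H - 1) ≤ B * A ^ 2 * (1 / (w₀ : ℝ) ^ 2) :=
      mul_le_mul_of_nonneg_left (by linarith) (by positivity)
    have h4 : B * A ^ 2 * H - 2 * A * (B * A) + B * A ^ 2 = B * A ^ 2 * (H - 1) := by ring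
    linarith
  -- Chebyshev
  obtain ⟨Z, hZ⟩ : ∃ Z : Finset (Mon (n + 2) → ZMod M),
    Z = univ.filter fun f : Mon (n + 2) → ZMod M => 2 * aN N M f < M ^ (n - 1) := ⟨_, rfl⟩
  have hZc : ((Finset.univ.filter fun f : Mon (n + 2) → ZMod M =>
      2 * aN N M f < M ^ (n - 1)).card : ℝ) = (Z.card : ℝ) := by
    rw [hZ]
  rw [hZc]
  have h5 : (Z.card : ℝ) * (A ^ 2 / 4) ≤ ∑ f : Mon (n + 2) → ZMod M, ((aN N M f : ℝ) - A) ^ 2 := by
    calc (Z.card : ℝ) * (A ^ 2 / 4) = ∑ _f ∈ Z, A ^ 2 / 4 := by rw [sum_const, nsmul_eq_mul]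
      _ ≤ ∑ f ∈ Z, ((aN N M f : ℝ) - A) ^ 2 := by
          refine sum_le_sum fun f hf => ?_
          rw [hZ, mem_filter] at hf
          have h6 : 2 * (aN N M f : ℝ) < A := by
            rw [hA]
            exact_mod_cast hf.2
          nlinarith
      _ ≤ ∑ f : Mon (n + 2) → ZMod M, ((aN N M f : ℝ) - A) ^ 2 :=
          sum_le_sum_of_subset_of_nonneg (subset_univ _) fun _ _ _ => sq_nonneg _
  have h7 : (Z.card : ℝ) * (A ^ 2 / 4) ≤ B * A ^ 2 * (1 / (w₀ : ℝ) ^ 2) := h5.trans var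
  rw [← hB]
  have h9 : (Z.card : ℝ) * (w₀ : ℝ) ^ 2 * (A ^ 2 / 4) ≤ 4 * B * (A ^ 2 / 4) := by
    calc (Z.card : ℝ) * (w₀ : ℝ) ^ 2 * (A ^ 2 / 4) = (Z.card : ℝ) * (A ^ 2 / 4) * (w₀ : ℝ) ^ 2 := by
          ring
      _ ≤ B * A ^ 2 * (1 / (w₀ : ℝ) ^ 2) * (w₀ : ℝ) ^ 2 :=
          mul_le_mul_of_nonneg_right h7 (by positivity)
      _ = 4 * B * (A ^ 2 / 4) := by
          field_simp
  exact le_of_mul_le_mul_right h9 (by positivity)

end Pool.Agent.H79.HFQ
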