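import Pool.Agent.H34.FQ.Targets

/-!
# Board hfq_modules, row PAR (helper79): the pairs of points over parallel vectors
-/

set_option autoImplicit false

open Finset Pool.Agent.H32.RQ

namespace Pool.Agent.H79.HFQ.PAR

open Pool.Agent.H34.FQ

/-! ## Primitive vectors -/

theorem prim_dec {n : ℕ} (v v' : Fin n → ℤ) (hv : v ≠ 0)
    (hpar : ∀ i j, v i * v' j = v j * v' i) :
    ∃ (u : Fin n → ℤ) (a a' : ℤ), Prm u ∧ a ≠ 0 ∧ (∀ i, v i = a * u i) ∧
      (∀ i, v' i = a' * u i) := by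
  obtain ⟨a, ha⟩ := (IsPrincipalIdealRing.principal (Ideal.span (Set.range v))).principal
  have h1 : ∀ i, a ∣ v i := by
    intro i
    have h : v i ∈ Ideal.span (Set.range v) := Ideal.subset_span ⟨i, rfl⟩
    rw [ha] at h
    exact Ideal.mem_span_singleton.1 h
  choose u hu using h1
  have ha0 : a ≠ 0 := by
    intro h0
    apply hv
    funext i
    rw [hu i, h0, zero_mul]
    rfl
  have h2 : a ∈ Ideal.span (Set.range v) := by
    rw [ha]
    exact Ideal.mem_span_singleton_self a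
  rw [Ideal.mem_span_range_iff_exists_fun] at h2
  obtain ⟨b, hb⟩ := h2
  have hub : ∑ i, b i * u i = 1 := by
    apply mul_left_cancel₀ ha0
    rw [mul_one, mul_sum]
    calc ∑ i, a * (b i * u i) = ∑ i, b i * v i := by
          refine sum_congr rfl fun i _ => ?_
          rw [hu i]
          ring
      _ = a := hb
  have hsw : ∀ i j, u i * v' j = u j * v' i := by
    intro i j
    apply mul_left_cancel₀ ha0
    calc a * (u i * v' j) = v i * v' j := by rw [hu i]; ring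
      _ = v j * v' i := hpar i j
      _ = a * (u j * v' i) := by rw [hu j]; ring
  refine ⟨u, a, ∑ i, b i * v' i, ⟨b, hub⟩, ha0, hu, fun j => ?_⟩
  calc v' j = (∑ i, b i * u i) * v' j := by rw [hub, one_mul]
    _ = (∑ i, b i * v' i) * u j := by
        rw [sum_mul, sum_mul]
        refine sum_congr rfl fun i _ => ?_
        have := hsw i j
        calc b i * u i * v' j = b i * (u i * v' j) := by ring
          _ = b i * (u j * v' i) := by rw [this]
          _ = b i * v' i * u j := by ring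

/-- the greatest coordinate -/
def Nn {n : ℕ} (v : Fin n → ℤ) : ℕ := univ.sup fun i => (v i).natAbs

theorem le_Nn {n : ℕ} (v : Fin n → ℤ) (i : Fin n) : (v i).natAbs ≤ Nn v :=
  le_sup (f := fun i => (v i).natAbs) (mem_univ i)

theorem Nn_attained {n : ℕ} (hn : 0 < n) (v : Fin n → ℤ) : ∃ i, (v i).natAbs = Nn v := by
  have : Nonempty (Fin n) := ⟨⟨0, hn⟩⟩
  obtain ⟨i, -, hi⟩ := exists_mem_eq_sup (univ : Finset (Fin n)) univ_nonempty
    (fun i => (v i).natAbs)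
  exact ⟨i, hi.symm⟩

theorem Nn_pos {n : ℕ} {v : Fin n → ℤ} (hv : v ≠ 0) : 1 ≤ Nn v := by
  obtain ⟨i, hi⟩ : ∃ i, v i ≠ 0 := by
    by_contra h
    push Not at h
    exact hv (funext h)
  have := le_Nn v i
  have h2 : 0 < (v i).natAbs := Int.natAbs_pos.2 hi
  omega

theorem mem_vb {n B : ℕ} {v : Fin n → ℤ} : v ∈ vb n B ↔ ∀ i, (v i).natAbs ≤ B := by
  unfold vb
  rw [Fintype.mem_piFinset]
  refine forall_congr' fun i => ?_
  rw [mem_Icc]
  omega

theorem mem_vb' {n B : ℕ} {v : Fin n → ℤ} : v ∈ vb n B ↔ Nn v ≤ B := by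
  rw [mem_vb]
  unfold Nn
  rw [Finset.sup_le_iff]
  exact ⟨fun h i _ => h i, fun h i => h i (mem_univ i)⟩

/-! ## Shells -/

theorem shell_card (n k : ℕ) (hn : 0 < n) (S : Finset (Fin n → ℤ)) (hS : ∀ v ∈ S, Nn v = k) :
    S.card ≤ 2 * n * (2 * k + 1) ^ (n - 1) := by
  classical
  have hsub : S ⊆ (univ : Finset (Fin n)).biUnion fun i =>
      ({(k : ℤ), -(k : ℤ)} : Finset ℤ).biUnion fun c =>
        Fintype.piFinset fun j => if j = i then {c} else Icc (-(k : ℤ)) k := by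
    intro v hv
    obtain ⟨i, hi⟩ := Nn_attained hn v
    have hk := hS v hv
    rw [mem_biUnion]
    refine ⟨i, mem_univ _, ?_⟩
    rw [mem_biUnion]
    refine ⟨v i, ?_, ?_⟩
    · rw [mem_insert, mem_singleton]
      omega
    · rw [Fintype.mem_piFinset]
      intro j
      by_cases hj : j = i
      · rw [if_pos hj, hj, mem_singleton]
      · rw [if_neg hj, mem_Icc]
        have := le_Nn v j
        omega
  have hcard : ∀ (i : Fin n) (c : ℤ), (Fintype.piFinset fun j =>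
      if j = i then ({c} : Finset ℤ) else Icc (-(k : ℤ)) k).card = (2 * k + 1) ^ (n - 1) := by
    intro i c
    rw [Fintype.card_piFinset]
    have h1 : ∀ j : Fin n, (if j = i then ({c} : Finset ℤ) else Icc (-(k : ℤ)) k).card =
        if j = i then 1 else 2 * k + 1 := by
      intro j
      by_cases hj : j = i
      · rw [if_pos hj, if_pos hj, card_singleton]
      · rw [if_neg hj, if_neg hj, Int.card_Icc]
        omega
    rw [prod_congr rfl fun j _ => h1 j, ← mul_prod_erase _ _ (mem_univ i), if_pos rfl, one_mul,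
      prod_congr rfl fun j hj => if_neg (ne_of_mem_erase hj), prod_const, card_erase_of_mem
      (mem_univ i), card_univ, Fintype.card_fin]
  calc S.card ≤ _ := card_le_card hsub
    _ ≤ (univ : Finset (Fin n)).card * (2 * (2 * k + 1) ^ (n - 1)) := by
        refine card_biUnion_le_card_mul _ _ _ fun i _ => ?_
        refine (card_biUnion_le_card_mul _ _ ((2 * k + 1) ^ (n - 1)) fun c _ =>
          (hcard i c).le).trans ?_
        exact Nat.mul_le_mul_right _ card_le_two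
    _ = 2 * n * (2 * k + 1) ^ (n - 1) := by
        rw [card_univ, Fintype.card_fin]
        ring

theorem shell_sum (n B : ℕ) (hn : 4 ≤ n) (U : Finset (Fin n → ℤ)) (hU : ∀ u ∈ U, u ≠ 0 ∧ Nn u ≤ B) :
    ∑ u ∈ U, 1 / (Nn u : ℝ) ^ 4 ≤ 2 * n * 3 ^ (n - 1) * (B : ℝ) ^ (n - 3) := by
  classical
  have hmap : ∀ u ∈ U, Nn u ∈ Icc 1 B := by
    intro u hu
    rw [mem_Icc]
    exact ⟨Nn_pos (hU u hu).1, (hU u hu).2⟩
  rw [← sum_fiberwise_of_maps_to hmap]
  have h1 : ∀ k ∈ Icc 1 B, ∑ u ∈ U.filter (fun u => Nn u = k), 1 / (Nn u : ℝ) ^ 4 ≤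
      2 * n * 3 ^ (n - 1) * (B : ℝ) ^ (n - 4) := by
    intro k hk
    rw [mem_Icc] at hk
    have hk1 : (1 : ℝ) ≤ k := by exact_mod_cast hk.1
    have hkB : (k : ℝ) ≤ B := by exact_mod_cast hk.2
    have h2 : ∑ u ∈ U.filter (fun u => Nn u = k), 1 / (Nn u : ℝ) ^ 4 =
        ((U.filter (fun u => Nn u = k)).card : ℝ) * (1 / (k : ℝ) ^ 4) := by
      rw [← nsmul_eq_mul, ← sum_const]
      refine sum_congr rfl fun u hu => ?_
      rw [(mem_filter.1 hu).2]
    have h3 : ((U.filter (fun u => Nn u = k)).card : ℝ) ≤ 2 * n * (3 * k) ^ (n - 1) := by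
      have h4 := shell_card n k (by omega) (U.filter (fun u => Nn u = k))
        (fun v hv => (mem_filter.1 hv).2)
      have h5 : (2 * k + 1) ^ (n - 1) ≤ (3 * k) ^ (n - 1) := Nat.pow_le_pow_left (by omega) _
      have h6 : (U.filter (fun u => Nn u = k)).card ≤ 2 * n * (3 * k) ^ (n - 1) :=
        h4.trans (Nat.mul_le_mul_left _ h5)
      exact_mod_cast h6
    rw [h2]
    calc ((U.filter (fun u => Nn u = k)).card : ℝ) * (1 / (k : ℝ) ^ 4)
        ≤ 2 * n * (3 * k) ^ (n - 1) * (1 / (k : ℝ) ^ 4) :=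
          mul_le_mul_of_nonneg_right h3 (by positivity)
      _ = 2 * n * 3 ^ (n - 1) * ((k : ℝ) ^ (n - 1) * (1 / (k : ℝ) ^ 4)) := by
          rw [mul_pow]
          ring
      _ ≤ 2 * n * 3 ^ (n - 1) * (B : ℝ) ^ (n - 4) := by
          refine mul_le_mul_of_nonneg_left ?_ (by positivity)
          have h7 : (k : ℝ) ^ (n - 1) * (1 / (k : ℝ) ^ 4) ≤ (k : ℝ) ^ (n - 4) := by
            rw [mul_one_div, div_le_iff₀ (by positivity), ← pow_add]
            exact pow_le_pow_right₀ hk1 (by omega)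
          exact h7.trans (pow_le_pow_left₀ (by linarith) hkB _)
  refine (sum_le_sum h1).trans (le_of_eq ?_)
  rw [sum_const, Nat.card_Icc, nsmul_eq_mul, Nat.add_sub_cancel]
  have h2 : (B : ℝ) ^ (n - 3) = B * (B : ℝ) ^ (n - 4) := by
    rw [← pow_succ']
    congr 1
    omega
  rw [h2]
  ring

/-! ## The weight of a pair -/

theorem qf_smul {s : ℕ} (f : Mon s → ℤ) (t : ℤ) (x : Fin s → ℤ) :
    qf f (fun i => t * x i) = t ^ 2 * qf f x := by
  unfold qf
  rw [mul_sum]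
  refine sum_congr rfl fun p _ => ?_
  ring

theorem dm_eq_zero {s : ℕ} {x y : Fin s → ℤ} (h : ∀ i j, mnr x y i j = 0) : dm x y = 0 := by
  unfold dm
  apply Nat.eq_zero_of_le_zero
  refine Finset.sup_le fun p _ => ?_
  rw [h]
  simp

theorem le_dm {s : ℕ} (x y : Fin s → ℤ) (i j : Fin s) : (mnr x y i j).natAbs ≤ dm x y :=
  le_sup (f := fun p : Fin s × Fin s => (mnr x y p.1 p.2).natAbs) (mem_univ (i, j))

theorem gm_dvd {s : ℕ} (x y : Fin s → ℤ) (i j : Fin s) : (gm x y : ℤ) ∣ mnr x y i j := by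
  have h : gm x y ∣ (mnr x y i j).natAbs :=
    gcd_dvd (f := fun p : Fin s × Fin s => (mnr x y p.1 p.2).natAbs) (mem_univ (i, j))
  exact Int.natCast_dvd.2 h

variable {n : ℕ} {F : Mon (n + 2) → ℤ}

theorem EX_e0 {N : NF F} {m0 K X : ℕ} {e : Fin (n + 2) → ℤ} (he : e ∈ EX N m0 K X) :
    e 0 ≠ 0 := by
  classical
  unfold EX at he
  rw [mem_filter] at he
  obtain ⟨-, ⟨m, l, hm, -, hl, -, -, h0⟩, -, -⟩ := he
  rw [h0]
  have := hl.pos
  positivity

theorem EX_eq {N : NF F} {m0 K X : ℕ} {e : Fin (n + 2) → ℤ} (he : e ∈ EX N m0 K X) :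
    N.mu * e 0 * e 1 + qf N.q (cv (e 0) (vt e)) = 0 := by
  classical
  unfold EX at he
  rw [mem_filter] at he
  exact he.2.2.1

theorem EX_vt {N : NF F} {m0 K X : ℕ} {e : Fin (n + 2) → ℤ} (he : e ∈ EX N m0 K X) :
    vt e ≠ 0 := by
  classical
  unfold EX at he
  rw [mem_filter] at he
  intro h
  apply he.2.2.2
  rw [h]
  unfold qf
  refine sum_eq_zero fun p _ => ?_
  simp

theorem EX_bd {N : NF F} {m0 K X : ℕ} {e : Fin (n + 2) → ℤ} (he : e ∈ EX N m0 K X) :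
    Nn (vt e) ≤ K * X := by
  classical
  unfold EX at he
  rw [mem_filter] at he
  have h := mem_vb.1 he.1
  refine Finset.sup_le fun i _ => ?_
  exact h i.succ.succ

theorem weight {N : NF F} {m0 K X : ℕ} (hn : 0 < n) {e e' : Fin (n + 2) → ℤ}
    (he : e ∈ EX N m0 K X) (he' : e' ∈ EX N m0 K X) {u : Fin n → ℤ} {a a' : ℤ} (hu : Prm u)
    (hv : ∀ i, vt e i = a * u i) (hv' : ∀ i, vt e' i = a' * u i) (hdm : dm e e' ≠ 0) :
    (gm e e' : ℝ) * ((X : ℝ) ^ 2 / dm e e') ^ 2 ≤ (X : ℝ) ^ 4 / (Nn u : ℝ) ^ 2 := by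
  have hc := EX_e0 he
  have hc' := EX_e0 he'
  obtain ⟨h, hh⟩ : ∃ h : ℤ, h = e 0 * a' - e' 0 * a := ⟨_, rfl⟩
  have hmn : ∀ i : Fin n, mnr e e' 0 i.succ.succ = h * u i := by
    intro i
    unfold mnr
    have h1 : e i.succ.succ = a * u i := hv i
    have h2 : e' i.succ.succ = a' * u i := hv' i
    rw [h1, h2, hh]
    ring
  have hu0 : u ≠ 0 := by
    rintro rfl
    obtain ⟨b, hb⟩ := hu
    simp at hb
  have hh0 : h ≠ 0 := by
    intro h0
    apply hdm
    apply dm_eq_zero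
    have hrel : e 0 * a' = e' 0 * a := by linarith
    have hrv : ∀ i : Fin n, e 0 * vt e' i = e' 0 * vt e i := by
      intro i
      rw [hv i, hv' i, ← mul_assoc, ← mul_assoc, hrel]
    have hcv : (fun j => e 0 * cv (e' 0) (vt e') j) = fun j => e' 0 * cv (e 0) (vt e) j := by
      funext j
      refine Fin.cases ?_ (fun i => ?_) j
      · show e 0 * e' 0 = e' 0 * e 0
        ring
      · exact hrv i
    have h1 : e 0 ^ 2 * qf N.q (cv (e' 0) (vt e')) = e' 0 ^ 2 * qf N.q (cv (e 0) (vt e)) := by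
      rw [← qf_smul, ← qf_smul, hcv]
    have h2 := EX_eq he
    have h3 := EX_eq he'
    have h4 : N.mu * (e 0 * e' 0) * (e 0 * e' 1 - e' 0 * e 1) = 0 := by
      have h5 : qf N.q (cv (e' 0) (vt e')) = -(N.mu * e' 0 * e' 1) := by linarith
      have h6 : qf N.q (cv (e 0) (vt e)) = -(N.mu * e 0 * e 1) := by linarith
      rw [h5, h6] at h1
      linarith
    have h5 : e 0 * e' 1 = e' 0 * e 1 := by
      rcases mul_eq_zero.1 h4 with h6 | h6
      · exact absurd h6 (mul_ne_zero N.mu0 (mul_ne_zero hc hc'))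
      · linarith
    have hall : ∀ j : Fin (n + 2), e 0 * e' j = e' 0 * e j := by
      intro j
      refine Fin.cases ?_ (fun j => Fin.cases ?_ (fun i => ?_) j) j
      · ring
      · exact h5
      · exact hrv i
    intro i j
    unfold mnr
    apply mul_left_cancel₀ hc
    calc e 0 * (e i * e' j - e j * e' i) = e i * (e 0 * e' j) - e j * (e 0 * e' i) := by ring
      _ = e i * (e' 0 * e j) - e j * (e' 0 * e i) := by rw [hall i, hall j]
      _ = e 0 * 0 := by ring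
  have hgm : gm e e' ≤ h.natAbs := by
    obtain ⟨b, hb⟩ := hu
    have h1 : (gm e e' : ℤ) ∣ h := by
      have h2 : h = ∑ i, b i * (h * u i) := by
        calc h = h * ∑ i, b i * u i := by rw [hb, mul_one]
          _ = ∑ i, b i * (h * u i) := by
              rw [mul_sum]
              exact sum_congr rfl fun i _ => by ring
      rw [h2]
      refine dvd_sum fun i _ => Dvd.dvd.mul_left ?_ _
      rw [← hmn i]
      exact gm_dvd _ _ _ _
    exact Nat.le_of_dvd (Int.natAbs_pos.2 hh0) (Int.natCast_dvd.1 h1)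
  have hdm' : h.natAbs * Nn u ≤ dm e e' := by
    obtain ⟨i, hi⟩ := Nn_attained hn u
    have h1 := le_dm e e' 0 i.succ.succ
    rw [hmn i, Int.natAbs_mul, hi] at h1
    exact h1
  have hN1 : 1 ≤ Nn u := Nn_pos hu0
  have hh1 : 1 ≤ h.natAbs := Int.natAbs_pos.2 hh0
  have hN1' : (1 : ℝ) ≤ Nn u := by exact_mod_cast hN1
  have hh1' : (1 : ℝ) ≤ h.natAbs := by exact_mod_cast hh1
  have hgm' : (gm e e' : ℝ) ≤ h.natAbs := by exact_mod_cast hgm
  have hdm'' : (h.natAbs : ℝ) * Nn u ≤ dm e e' := by exact_mod_cast hdm'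
  have hp : (0 : ℝ) < (h.natAbs : ℝ) * Nn u := by positivity
  calc (gm e e' : ℝ) * ((X : ℝ) ^ 2 / dm e e') ^ 2
      ≤ (h.natAbs : ℝ) * ((X : ℝ) ^ 2 / ((h.natAbs : ℝ) * Nn u)) ^ 2 := by
        refine mul_le_mul hgm' ?_ (by positivity) (by positivity)
        refine pow_le_pow_left₀ (by positivity) ?_ 2
        exact div_le_div_of_nonneg_left (by positivity) hp hdm''
    _ = (X : ℝ) ^ 4 / (Nn u : ℝ) ^ 2 * (1 / (h.natAbs : ℝ)) := by
        have h1 : (h.natAbs : ℝ) ≠ 0 := by positivity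
        have h2 : (Nn u : ℝ) ≠ 0 := by positivity
        field_simp
    _ ≤ (X : ℝ) ^ 4 / (Nn u : ℝ) ^ 2 * 1 := by
        refine mul_le_mul_of_nonneg_left ?_ (by positivity)
        rw [div_le_one (by positivity)]
        exact hh1'
    _ = (X : ℝ) ^ 4 / (Nn u : ℝ) ^ 2 := mul_one _

/-- covering sums -/
theorem sum_cover {α β : Type*} (S : Finset α) (T : Finset β) (R : β → α → Prop)
    [∀ t, DecidablePred (R t)] (w : α → ℝ) (hw : ∀ q ∈ S, 0 ≤ w q)
    (h : ∀ q ∈ S, ∃ t ∈ T, R t q) :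
    ∑ q ∈ S, w q ≤ ∑ t ∈ T, ∑ q ∈ S.filter (R t), w q := by
  have h1 : ∑ t ∈ T, ∑ q ∈ S.filter (R t), w q =
      ∑ q ∈ S, ∑ t ∈ T, if R t q then w q else 0 := by
    rw [sum_comm]
    refine sum_congr rfl fun t _ => ?_
    rw [sum_filter]
  rw [h1]
  refine sum_le_sum fun q hq => ?_
  obtain ⟨t, ht, hR⟩ := h q hq
  have h2 := single_le_sum (f := fun t => if R t q then w q else 0) (s := T)
    (fun t _ => by
      show 0 ≤ if R t q then w q else 0
      split_ifs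
      · exact hw q hq
      · exact le_rfl) ht
  have h3 : (if R t q then w q else 0) = w q := if_pos hR
  rw [h3] at h2
  exact h2

theorem pf_PAR (hDVC : T_DVC) : T_PAR := by
  classical
  intro n F N m0 K hn
  obtain ⟨X₀, hX₀⟩ := hDVC n F N m0 K
  refine ⟨36 * (m0 : ℝ) ^ 2 * (K : ℝ) ^ 2 * (2 * n * 3 ^ (n - 1) * (K : ℝ) ^ (n - 3)) + 1,
    by positivity, X₀, ?_⟩
  intro X hX
  have hD := hX₀ X hX
  set B : ℕ := K * X with hB
  set S := (EX N m0 K X ×ˢ EX N m0 K X).filter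
    (fun q => dm (vt q.1) (vt q.2) = 0 ∧ dm q.1 q.2 ≠ 0) with hS
  set U : Finset (Fin n → ℤ) := (vb n B).filter fun u => Prm u with hU
  have hU0 : ∀ u ∈ U, u ≠ 0 ∧ Nn u ≤ B := by
    intro u hu
    rw [hU, mem_filter] at hu
    refine ⟨?_, mem_vb'.1 hu.1⟩
    rintro rfl
    obtain ⟨b, hb⟩ := hu.2
    simp at hb
  set A : (Fin n → ℤ) → Finset ℤ := fun u => Icc (-((B / Nn u : ℕ) : ℤ)) ((B / Nn u : ℕ) : ℤ)
    with hA
  set T : Finset (Σ _ : Fin n → ℤ, ℤ × ℤ) := U.sigma fun u => A u ×ˢ A u with hT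
  set Rr : (Σ _ : Fin n → ℤ, ℤ × ℤ) → ((Fin (n + 2) → ℤ) × (Fin (n + 2) → ℤ)) → Prop :=
    fun t q => vt q.1 = (fun i => t.2.1 * t.1 i) ∧ vt q.2 = fun i => t.2.2 * t.1 i with hR
  have hw0 : ∀ q ∈ S, 0 ≤ (gm q.1 q.2 : ℝ) * ((X : ℝ) ^ 2 / dm q.1 q.2) ^ 2 :=
    fun q _ => by positivity
  have hmemA : ∀ (u : Fin n → ℤ) (a : ℤ), u ≠ 0 → (∀ i, (a * u i).natAbs ≤ B) → a ∈ A u := by
    intro u a hu h
    obtain ⟨i, hi⟩ := Nn_attained (by omega) u
    have h1 := h i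
    rw [Int.natAbs_mul, hi] at h1
    have h2 : a.natAbs ≤ B / Nn u := (Nat.le_div_iff_mul_le (Nn_pos hu)).2 h1
    simp only [hA, mem_Icc]
    omega
  have hcov : ∀ q ∈ S, ∃ t ∈ T, Rr t q := by
    rintro ⟨e, e'⟩ hq
    rw [hS, mem_filter, mem_product] at hq
    obtain ⟨⟨he, he'⟩, h0, -⟩ := hq
    simp only at he he' h0
    have hpar : ∀ i j, vt e i * vt e' j = vt e j * vt e' i := by
      intro i j
      have h1 := le_dm (vt e) (vt e') i j
      rw [h0] at h1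
      have h2 : mnr (vt e) (vt e') i j = 0 := Int.natAbs_eq_zero.1 (Nat.eq_zero_of_le_zero h1)
      unfold mnr at h2
      linarith
    obtain ⟨u, a, a', hu, ha, hv, hv'⟩ := prim_dec (vt e) (vt e') (EX_vt he) hpar
    have hu0 : u ≠ 0 := by
      rintro rfl
      obtain ⟨b, hb⟩ := hu
      simp at hb
    have hbe : ∀ i, (a * u i).natAbs ≤ B := by
      intro i
      rw [← hv i]
      exact (le_Nn (vt e) i).trans (EX_bd he)
    have hbe' : ∀ i, (a' * u i).natAbs ≤ B := by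
      intro i
      rw [← hv' i]
      exact (le_Nn (vt e') i).trans (EX_bd he')
    refine ⟨⟨u, (a, a')⟩, ?_, funext hv, funext hv'⟩
    rw [hT, mem_sigma, mem_product]
    refine ⟨?_, hmemA u a hu0 hbe, hmemA u a' hu0 hbe'⟩
    rw [hU, mem_filter]
    refine ⟨mem_vb.2 fun i => ?_, hu⟩
    have h1 := hbe i
    rw [Int.natAbs_mul] at h1
    have h2 : 1 ≤ a.natAbs := Int.natAbs_pos.2 ha
    calc (u i).natAbs = 1 * (u i).natAbs := (one_mul _).symm
      _ ≤ a.natAbs * (u i).natAbs := Nat.mul_le_mul_right _ h2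
      _ ≤ B := h1
  refine (sum_cover S T Rr _ hw0 hcov).trans ?_
  have hfib : ∀ t ∈ T, ∑ q ∈ S.filter (Rr t), (gm q.1 q.2 : ℝ) * ((X : ℝ) ^ 2 / dm q.1 q.2) ^ 2 ≤
      (2 * (m0 : ℝ)) ^ 2 * ((X : ℝ) ^ 4 / (Nn t.1 : ℝ) ^ 2) := by
    rintro ⟨u, a, a'⟩ ht
    rw [hT, mem_sigma] at ht
    have hu := ht.1
    rw [hU, mem_filter] at hu
    have h1 : ∀ q ∈ S.filter (Rr ⟨u, a, a'⟩),
        (gm q.1 q.2 : ℝ) * ((X : ℝ) ^ 2 / dm q.1 q.2) ^ 2 ≤ (X : ℝ) ^ 4 / (Nn u : ℝ) ^ 2 := by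
      rintro ⟨e, e'⟩ hq
      rw [mem_filter, hS, mem_filter, mem_product] at hq
      obtain ⟨⟨⟨he, he'⟩, -, hne⟩, hr1, hr2⟩ := hq
      exact weight (by omega) he he' hu.2 (fun i => congrFun hr1 i) (fun i => congrFun hr2 i) hne
    have h2 : ((S.filter (Rr ⟨u, a, a'⟩)).card : ℝ) ≤ (2 * (m0 : ℝ)) ^ 2 := by
      have hsub : S.filter (Rr ⟨u, a, a'⟩) ⊆
          ((EX N m0 K X).filter fun e => vt e = fun i => a * u i) ×ˢ
            ((EX N m0 K X).filter fun e => vt e = fun i => a' * u i) := by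
        rintro ⟨e, e'⟩ hq
        rw [mem_filter, hS, mem_filter, mem_product] at hq
        obtain ⟨⟨⟨he, he'⟩, -, -⟩, hr1, hr2⟩ := hq
        rw [mem_product, mem_filter, mem_filter]
        exact ⟨⟨he, hr1⟩, he', hr2⟩
      have h3 := card_le_card hsub
      rw [card_product] at h3
      have h4 : ((EX N m0 K X).filter fun e => vt e = fun i => a * u i).card *
          ((EX N m0 K X).filter fun e => vt e = fun i => a' * u i).card ≤
          (2 * m0) * (2 * m0) := Nat.mul_le_mul (hD _) (hD _)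
      have h5 : (S.filter (Rr ⟨u, a, a'⟩)).card ≤ (2 * m0) * (2 * m0) := h3.trans h4
      have h6 : ((S.filter (Rr ⟨u, a, a'⟩)).card : ℝ) ≤ (2 * m0) * (2 * m0) := by
        exact_mod_cast h5
      rw [sq]
      exact h6
    calc ∑ q ∈ S.filter (Rr ⟨u, a, a'⟩), (gm q.1 q.2 : ℝ) * ((X : ℝ) ^ 2 / dm q.1 q.2) ^ 2
        ≤ ∑ _q ∈ S.filter (Rr ⟨u, a, a'⟩), (X : ℝ) ^ 4 / (Nn u : ℝ) ^ 2 := sum_le_sum h1
      _ = ((S.filter (Rr ⟨u, a, a'⟩)).card : ℝ) * ((X : ℝ) ^ 4 / (Nn u : ℝ) ^ 2) := by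
          rw [sum_const, nsmul_eq_mul]
      _ ≤ (2 * (m0 : ℝ)) ^ 2 * ((X : ℝ) ^ 4 / (Nn u : ℝ) ^ 2) :=
          mul_le_mul_of_nonneg_right h2 (by positivity)
  refine (sum_le_sum hfib).trans ?_
  rw [hT, sum_sigma]
  have hin : ∀ u ∈ U, ∑ t ∈ A u ×ˢ A u,
      (2 * (m0 : ℝ)) ^ 2 * ((X : ℝ) ^ 4 / (Nn u : ℝ) ^ 2) ≤
      36 * (m0 : ℝ) ^ 2 * (B : ℝ) ^ 2 * (X : ℝ) ^ 4 * (1 / (Nn u : ℝ) ^ 4) := by
    intro u hu
    obtain ⟨hu0, huB⟩ := hU0 u hu
    have hN1 : (1 : ℝ) ≤ Nn u := by exact_mod_cast Nn_pos hu0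
    have hNB : (Nn u : ℝ) ≤ B := by exact_mod_cast huB
    have hcA : ((A u).card : ℝ) ≤ 3 * B / Nn u := by
      have h1 : (A u).card = 2 * (B / Nn u) + 1 := by
        simp only [hA, Int.card_Icc]
        omega
      rw [h1]
      push_cast
      have h2 : ((B / Nn u : ℕ) : ℝ) ≤ (B : ℝ) / Nn u := Nat.cast_div_le
      have h3 : (1 : ℝ) ≤ (B : ℝ) / Nn u := by
        rw [le_div_iff₀ (by linarith)]
        linarith
      have h4 : 3 * (B : ℝ) / Nn u = 3 * ((B : ℝ) / Nn u) := by ring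
      rw [h4]
      linarith
    rw [sum_const, card_product, nsmul_eq_mul]
    push_cast
    calc ((A u).card : ℝ) * ((A u).card : ℝ) *
          ((2 * (m0 : ℝ)) ^ 2 * ((X : ℝ) ^ 4 / (Nn u : ℝ) ^ 2))
        ≤ (3 * B / Nn u) * (3 * B / Nn u) *
          ((2 * (m0 : ℝ)) ^ 2 * ((X : ℝ) ^ 4 / (Nn u : ℝ) ^ 2)) := by
          refine mul_le_mul_of_nonneg_right ?_ (by positivity)
          exact mul_le_mul hcA hcA (by positivity) (by positivity)
      _ = 36 * (m0 : ℝ) ^ 2 * (B : ℝ) ^ 2 * (X : ℝ) ^ 4 * (1 / (Nn u : ℝ) ^ 4) := by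
          have h2 : (Nn u : ℝ) ≠ 0 := by positivity
          field_simp
          ring
  refine (sum_le_sum hin).trans ?_
  rw [← mul_sum]
  have hsh := shell_sum n B hn U hU0
  calc 36 * (m0 : ℝ) ^ 2 * (B : ℝ) ^ 2 * (X : ℝ) ^ 4 * ∑ u ∈ U, 1 / (Nn u : ℝ) ^ 4
      ≤ 36 * (m0 : ℝ) ^ 2 * (B : ℝ) ^ 2 * (X : ℝ) ^ 4 *
        (2 * n * 3 ^ (n - 1) * (B : ℝ) ^ (n - 3)) :=
        mul_le_mul_of_nonneg_left hsh (by positivity)
    _ = 36 * (m0 : ℝ) ^ 2 * (K : ℝ) ^ 2 * (2 * n * 3 ^ (n - 1) * (K : ℝ) ^ (n - 3)) *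
        (X : ℝ) ^ (n + 3) := by
        have h1 : (X : ℝ) ^ (n + 3) = (X : ℝ) ^ 2 * (X : ℝ) ^ 4 * (X : ℝ) ^ (n - 3) := by
          rw [← pow_add, ← pow_add]
          congr 1
          omega
        rw [h1, hB]
        push_cast
        rw [mul_pow, mul_pow]
        ring
    _ ≤ (36 * (m0 : ℝ) ^ 2 * (K : ℝ) ^ 2 * (2 * n * 3 ^ (n - 1) * (K : ℝ) ^ (n - 3)) + 1) *
        (X : ℝ) ^ (n + 3) := by
        refine mul_le_mul_of_nonneg_right (by linarith) (by positivity)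

end Pool.Agent.H79.HFQ.PAR
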